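import Pool.Agent.Y246.LG.Stm

/-!
Project LG (helper246): S_PROD.
-/

set_option autoImplicit false

namespace Pool.Agent.Y555.LG.Prod

open Pool.Agent.Y246.LG Polynomial Finset

theorem smono {M : ℕ} {r : ℕ → ℝ} (h : ∀ j, j + 1 < M → r j < r (j + 1)) :
    ∀ j, j < M → ∀ i, i < j → r i < r j := by
  intro j
  induction j with
  | zero => intro _ i hi; omega
  | succ j ih =>
    intro hj i hi
    rcases Nat.lt_or_ge i j with h1 | h1
    · exact (ih (by omega) i h1).trans (h j (by omega))
    · obtain rfl : i = j := by omega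
      exact h i (by omega)

theorem t : S_PROD := by
  intro M a b hab hinc
  set r : ℕ → ℝ := fun j => b j / a j with hr
  have hrpos : ∀ j, j < M → 0 < r j := fun j hj => div_pos (hab j hj).2 (hab j hj).1
  have hrinc : ∀ j, j + 1 < M → r j < r (j + 1) := by
    intro j hj
    rw [hr]
    show b j / a j < b (j + 1) / a (j + 1)
    rw [div_lt_div_iff₀ (hab j (by omega)).1 (hab (j + 1) hj).1]
    exact hinc j hj
  have hrm := smono hrinc
  have hrle : ∀ j, j < M → ∀ i, i ≤ j → r i ≤ r j := by
    intro j hj i hi
    rcases Nat.lt_or_ge i j with h1 | h1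
    · exact (hrm j hj i h1).le
    · obtain rfl : i = j := by omega
      exact le_refl _
  set s : ℕ → ℝ := fun m => if m = 0 then 0 else if m = M then r (M - 1) + 1 else
    (r (m - 1) + r m) / 2 with hs
  have s0 : s 0 = 0 := by simp [hs]
  have hlow : ∀ m, m ≤ M → ∀ j, j < m → r j < s m := by
    intro m hm j hj
    have hm0 : m ≠ 0 := by omega
    by_cases hmM : m = M
    · have h1 : s m = r (M - 1) + 1 := by simp [hs, hm0, hmM]; omega
      rw [h1]
      have := hrle (M - 1) (by omega) j (by omega)
      linarith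
    · have h1 : s m = (r (m - 1) + r m) / 2 := by simp [hs, hm0, hmM]
      rw [h1]
      have h2 := hrle (m - 1) (by omega) j (by omega)
      have h3 := hrm m (by omega) (m - 1) (by omega)
      linarith
  have hhigh : ∀ m, m ≤ M → ∀ j, m ≤ j → j < M → s m < r j := by
    intro m hm j hj hjM
    by_cases hm0 : m = 0
    · rw [hm0, s0]
      exact hrpos j hjM
    · have hmM : m ≠ M := by omega
      have h1 : s m = (r (m - 1) + r m) / 2 := by simp [hs, hm0, hmM]
      rw [h1]
      have h2 := hrle j hjM m hj
      have h3 := hrm m (by omega) (m - 1) (by omega)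
      linarith
  have hfneg : ∀ m, m ≤ M → ∀ j, j < m → a j * (-s m) + b j < 0 := by
    intro m hm j hj
    have h1 := hlow m hm j hj
    have h2 := (hab j (by omega)).1
    have h3 : b j / a j < s m := h1
    rw [div_lt_iff₀ h2] at h3
    linarith
  have hfpos : ∀ m, m ≤ M → ∀ j, m ≤ j → j < M → 0 < a j * (-s m) + b j := by
    intro m hm j hj hjM
    have h1 := hhigh m hm j hj hjM
    have h2 := (hab j hjM).1
    have h3 : s m < b j / a j := h1
    rw [lt_div_iff₀ h2] at h3
    linarith
  refine ⟨fun i => -s (M - i), ?_, ?_, ?_⟩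
  · intro i hi
    have h1 := hhigh (M - (i + 1)) (by omega) (M - (i + 1)) le_rfl (by omega)
    have h2 := hlow (M - i) (by omega) (M - (i + 1)) (by omega)
    show -s (M - i) < -s (M - (i + 1))
    linarith
  · show -s (M - M) ≤ 0
    rw [Nat.sub_self, s0]
    simp
  · intro i hi
    show (∏ j ∈ range M, (C (a j) * X + C (b j))).eval (-s (M - i)) *
      (∏ j ∈ range M, (C (a j) * X + C (b j))).eval (-s (M - (i + 1))) < 0
    rw [eval_prod, eval_prod, ← Finset.prod_mul_distrib]
    have hmem : M - (i + 1) ∈ range M := Finset.mem_range.mpr (by omega)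
    rw [← Finset.mul_prod_erase (range M) _ hmem]
    apply mul_neg_of_neg_of_pos
    · simp only [eval_add, eval_mul, eval_C, eval_X]
      exact mul_neg_of_neg_of_pos (hfneg (M - i) (by omega) (M - (i + 1)) (by omega))
        (hfpos (M - (i + 1)) (by omega) (M - (i + 1)) le_rfl (by omega))
    · apply Finset.prod_pos
      intro j hj
      obtain ⟨hj1, hj2⟩ := Finset.mem_erase.mp hj
      rw [Finset.mem_range] at hj2
      simp only [eval_add, eval_mul, eval_C, eval_X]
      rcases Nat.lt_or_ge j (M - (i + 1)) with h | h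
      · exact mul_pos_of_neg_of_neg (hfneg (M - i) (by omega) j (by omega))
          (hfneg (M - (i + 1)) (by omega) j h)
      · exact mul_pos (hfpos (M - i) (by omega) j (by omega) hj2)
          (hfpos (M - (i + 1)) (by omega) j (by omega) hj2)

end Pool.Agent.Y555.LG.Prod
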