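import Pool.Agent.Y246.LG.Stm

/-!
Project LG (helper246): S_ROOTS and S_OPEN.
-/

set_option autoImplicit false

namespace Pool.Agent.Y555.LG.Roots

open Pool.Agent.Y246.LG Polynomial Finset

theorem mono_of {M : ℕ} {y : ℕ → ℝ} (h : ∀ i < M, y i < y (i + 1)) :
    ∀ j, j ≤ M → ∀ i, i ≤ j → y i ≤ y j := by
  intro j
  induction j with
  | zero => intro _ i hi; obtain rfl : i = 0 := by omega
            exact le_refl _
  | succ j ih =>
    intro hj i hi
    rcases Nat.lt_or_ge i (j + 1) with h1 | h1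
    · exact (ih (by omega) i (by omega)).trans (h j (by omega)).le
    · obtain rfl : i = j + 1 := by omega
      exact le_refl _

theorem t_roots : S_ROOTS := by
  intro M p hM hdeg halt
  obtain ⟨y, hy, hyM, hs⟩ := halt
  have hroot : ∀ i : ℕ, ∃ x : ℝ, i < M → (y i < x ∧ x < y (i + 1) ∧ p.eval x = 0) := by
    intro i
    by_cases hi : i < M
    · have hc : ContinuousOn (fun x => p.eval x) (Set.Icc (y i) (y (i + 1))) :=
        p.continuous.continuousOn
      have hlt := hs i hi
      have hle := (hy i hi).le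
      rcases mul_neg_iff.mp hlt with ⟨h1, h2⟩ | ⟨h1, h2⟩
      · obtain ⟨x, hx, hx0⟩ := intermediate_value_Ioo' hle hc ⟨h2, h1⟩
        exact ⟨x, fun _ => ⟨hx.1, hx.2, hx0⟩⟩
      · obtain ⟨x, hx, hx0⟩ := intermediate_value_Ioo hle hc ⟨h1, h2⟩
        exact ⟨x, fun _ => ⟨hx.1, hx.2, hx0⟩⟩
    · exact ⟨0, fun h => absurd h hi⟩
  choose x hx using hroot
  have hp : p ≠ 0 := by
    rintro rfl
    have := hs 0 hM
    simp at this
  refine ⟨hp, fun z hz => ?_⟩
  have hneg : ∀ i, i < M → x i < 0 := by
    intro i hi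
    have h1 := (hx i hi).2.1
    have h2 := mono_of hy M le_rfl (i + 1) (by omega)
    linarith
  have hlt : ∀ i j, i < j → j < M → x i < x j := by
    intro i j hij hj
    have h1 := (hx i (by omega)).2.1
    have h2 := mono_of hy j (by omega) (i + 1) (by omega)
    have h3 := (hx j hj).1
    linarith
  have hinj : Set.InjOn (fun i : ℕ => (x i : ℂ)) (Finset.range M : Set ℕ) := by
    intro i hi j hj hij
    simp only [coe_range, Set.mem_Iio] at hi hj
    have hij' : x i = x j := by
      have h0 : ((x i : ℝ) : ℂ) = ((x j : ℝ) : ℂ) := hij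
      exact_mod_cast h0
    rcases lt_trichotomy i j with h | h | h
    · exact absurd hij' (hlt i j h hj).ne
    · exact h
    · exact absurd hij' (hlt j i h hi).ne'
  set P : ℂ[X] := p.map (algebraMap ℝ ℂ) with hP
  have hP0 : P ≠ 0 := by
    rw [hP]
    exact (Polynomial.map_ne_zero_iff (algebraMap ℝ ℂ).injective).mpr hp
  have hsub : (Finset.range M).image (fun i : ℕ => (x i : ℂ)) ⊆ P.roots.toFinset := by
    intro w hw
    obtain ⟨i, hi, rfl⟩ := Finset.mem_image.mp hw
    rw [Multiset.mem_toFinset, mem_roots hP0, IsRoot.def, hP]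
    have h1 := (hx i (Finset.mem_range.mp hi)).2.2
    have : eval ((x i : ℝ) : ℂ) (p.map (algebraMap ℝ ℂ)) = ((p.eval (x i) : ℝ) : ℂ) := by
      have := Polynomial.eval_map_apply (p := p) (algebraMap ℝ ℂ) (x i)
      simpa using this
    rw [this, h1]
    simp
  have hcard : P.roots.toFinset.card ≤ ((Finset.range M).image (fun i : ℕ => (x i : ℂ))).card := by
    rw [Finset.card_image_of_injOn hinj, Finset.card_range]
    calc P.roots.toFinset.card ≤ P.roots.card := Multiset.toFinset_card_le _
      _ ≤ P.natDegree := P.card_roots'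
      _ ≤ p.natDegree := natDegree_map_le
      _ ≤ M := hdeg
  have heq := Finset.eq_of_subset_of_card_le hsub hcard
  have hzm : z ∈ P.roots.toFinset := by
    rw [Multiset.mem_toFinset, mem_roots hP0, IsRoot.def, hP, eval_map_algebraMap]
    exact hz
  rw [← heq] at hzm
  obtain ⟨i, hi, rfl⟩ := Finset.mem_image.mp hzm
  exact ⟨by simp, by simpa using hneg i (Finset.mem_range.mp hi)⟩

theorem t_open : S_OPEN := by
  intro M g q halt
  obtain ⟨y, hy, hyM, hs⟩ := halt
  have hev : ∀ᶠ ε : ℝ in nhds 0, ∀ i ∈ Finset.range M,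
      (g + C ε * q).eval (y i) * (g + C ε * q).eval (y (i + 1)) < 0 := by
    rw [Filter.eventually_all_finset]
    intro i hi
    have hc : Continuous (fun ε : ℝ =>
        (g + C ε * q).eval (y i) * (g + C ε * q).eval (y (i + 1))) := by
      simp only [eval_add, eval_mul, eval_C]
      fun_prop
    have h0 : (fun ε : ℝ => (g + C ε * q).eval (y i) * (g + C ε * q).eval (y (i + 1))) 0 < 0 := by
      simpa using hs i (Finset.mem_range.mp hi)
    exact hc.continuousAt.eventually (gt_mem_nhds h0)
  obtain ⟨δ, hδ, h⟩ := Metric.eventually_nhds_iff.mp hev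
  refine ⟨δ, hδ, fun ε hε => ⟨y, hy, hyM, fun i hi => h ?_ i (Finset.mem_range.mpr hi)⟩⟩
  rw [Real.dist_eq, sub_zero]
  exact hε

end Pool.Agent.Y555.LG.Roots
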